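import Pool.Agent.Results.MP_a247fa_nt.AlmostBoundedCriticalOrbits
import Pool.Agent.R482.ST.Ae

/-!
# The critical orbits of Chamberland's map which start near powers, near iterates and near other sequences

Let `g_n`, `n = 0, 1, 2, …`, be positive functions on `(a, ∞)`, `a ≥ 0`, such that `g_n(t) / t` is nondecreasing. For almost
every `α > a`, for all but finitely many `n`, for ALL positive integers `j` with `|j - g_n(α)| ≤ L_n` the interval `J j`,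
which for odd `j` contains the critical point of `f` in `(j, j + 1/2)`, is carried by an iterate of `f` into some `J m` with
`m ≤ y_n`, as soon as the sums of `L_n y_n ^ (-1/20) (1 + log (g_n(t) / g_n(s)))` converge. For `g_n(t) = t ^ (v_n)`,
`v_n ≥ 1`, this is the case if `∑ v_n L_n y_n ^ (-1/20) < ∞`; for example for `v_n = n`, `L_n = 1` and `y_n = (n + 1) ^ 41`.
-/

set_option autoImplicit false

namespace Pool.Agent.Results.MP_a247fa_nt.CriticalNearPowers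

open MeasureTheory Pool.Agent.H934R2.Ch Filter

/-- The interval `J n = [n, n + 5/(6(2n+1))]`. -/
def J (n : ℕ) : Set ℝ := Set.Icc (n : ℝ) (n + 5 / (6 * (2 * (n : ℝ) + 1)))

/-- (1) an iterate of `f` carries the interval `J j` into `J m` for some `1 ≤ m ≤ Y`; (2) if `j` is odd then there is
exactly one critical point of `f` in `(j, j + 1/2)`, some iterate of it is at most `Y + 5/18`, and (3) every attracting
periodic point which attracts it attracts a point of `J m` for some `1 ≤ m ≤ Y`. -/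
def Low (Y : ℝ) (j : ℕ) : Prop :=
  (∃ m k : ℕ, 1 ≤ m ∧ (m : ℝ) ≤ Y ∧ ∀ x ∈ J j, f^[k] x ∈ J m) ∧
  (j % 2 = 1 → ∃! x : ℝ, (j : ℝ) < x ∧ x < j + 1 / 2 ∧ deriv f x = 0) ∧
  (j % 2 = 1 → ∀ x : ℝ, (j : ℝ) < x → x < j + 1 / 2 → deriv f x = 0 →
    (∃ k : ℕ, f^[k] x ≤ Y + 5 / 18) ∧
    ∀ z : ℝ, AttrPt z → Attracts z x → ∃ m : ℕ, 1 ≤ m ∧ (m : ℝ) ≤ Y ∧ ∃ w ∈ J m, Attracts z w)

/-- the functions `g n` are positive on `(a, ∞)`, `a ≥ 0`, and `g n x / x` is nondecreasing there -/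
def Starshaped (a : ℝ) (g : ℕ → ℝ → ℝ) : Prop :=
  0 ≤ a ∧ ∀ n : ℕ, ∀ x y : ℝ, a < x → x ≤ y → 0 < g n x ∧ g n x / x ≤ g n y / y

theorem key : ∃ C : ℝ, 0 < C ∧ ∀ y : ℕ → ℝ, (∀ n, 1 ≤ y n) → ∀ n, ∀ X : ℝ, 1 ≤ X →
    {x | x ∈ {j : ℕ | 1 ≤ j ∧ ¬ Low (y n) j} ∧ ((x : ℕ) : ℝ) ≤ X}.Finite ∧
    ({x | x ∈ {j : ℕ | 1 ≤ j ∧ ¬ Low (y n) j} ∧ ((x : ℕ) : ℝ) ≤ X}.ncard : ℝ) ≤
      (3 * C * (y n) ^ (-(1 / 20) : ℝ)) * X := by
  obtain ⟨a, _, _, _, hex, _, ⟨C, hC, hcount⟩, _⟩ := AlmostBoundedCriticalOrbits.result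
  refine ⟨C, hC, fun y hy => ?_⟩
  set S : ℕ → Set ℕ := fun n => {j : ℕ | 1 ≤ j ∧ ((¬ ∃ m k : ℕ, 1 ≤ m ∧ (m : ℝ) ≤ y n ∧ ∀ x ∈ J j, f^[k] x ∈ J m) ∨
    (j % 2 = 1 ∧ ∃ x : ℝ, (j : ℝ) < x ∧ x < j + 1 / 2 ∧ deriv f x = 0 ∧ ∀ k : ℕ, y n + 5 / 18 < f^[k] x) ∨
    (j % 2 = 1 ∧ ∃ x : ℝ, (j : ℝ) < x ∧ x < j + 1 / 2 ∧ deriv f x = 0 ∧ ∃ z : ℝ, AttrPt z ∧ Attracts z x ∧
      ∀ m : ℕ, 1 ≤ m → (m : ℝ) ≤ y n → ∀ w ∈ J m, ¬ Attracts z w))} with hS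
  have key : ∀ n, ∀ X : ℝ, 1 ≤ X → {x | x ∈ S n ∧ ((x : ℕ) : ℝ) ≤ X}.Finite ∧
      ({x | x ∈ S n ∧ ((x : ℕ) : ℝ) ≤ X}.ncard : ℝ) ≤ (3 * C * (y n) ^ (-(1 / 20) : ℝ)) * X := by
    intro n X hX
    have hb : ∀ P : Set ℕ, (∀ x ∈ P, (x : ℝ) ≤ X) → P.Finite := by
      intro P hP
      refine (Set.finite_Iic ⌊X⌋₊).subset ?_
      intro k hk
      exact Nat.le_floor (hP k hk)
    obtain ⟨h1, h2, h3, -⟩ := hcount X (y n) hX (hy n)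
    set A1 : Set ℕ := {n' : ℕ | 1 ≤ n' ∧ (n' : ℝ) ≤ X ∧
            ¬ ∃ m k : ℕ, 1 ≤ m ∧ (m : ℝ) ≤ y n ∧ ∀ x ∈ AlmostBoundedCriticalOrbits.J n',
              f^[k] x ∈ AlmostBoundedCriticalOrbits.J m} with hA1
    set A2 : Set ℕ := {n' : ℕ | n' % 2 = 1 ∧ (n' : ℝ) ≤ X ∧
            ∃ x : ℝ, (n' : ℝ) < x ∧ x < n' + 1 / 2 ∧ deriv f x = 0 ∧
              ∀ k : ℕ, y n + 5 / 18 < f^[k] x} with hA2
    set A3 : Set ℕ := {n' : ℕ | n' % 2 = 1 ∧ (n' : ℝ) ≤ X ∧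
            ∃ x : ℝ, (n' : ℝ) < x ∧ x < n' + 1 / 2 ∧ deriv f x = 0 ∧
              ∃ z : ℝ, AttrPt z ∧ Attracts z x ∧
                ∀ m : ℕ, 1 ≤ m → (m : ℝ) ≤ y n → ∀ w ∈ AlmostBoundedCriticalOrbits.J m, ¬ Attracts z w} with hA3
    have hf1 : A1.Finite := hb A1 (fun x hx => hx.2.1)
    have hf2 : A2.Finite := hb A2 (fun x hx => hx.2.1)
    have hf3 : A3.Finite := hb A3 (fun x hx => hx.2.1)
    refine ⟨hb _ (fun x hx => hx.2), ?_⟩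
    have hsub : {x | x ∈ S n ∧ ((x : ℕ) : ℝ) ≤ X} ⊆ (A1 ∪ A2) ∪ A3 := by
      rintro j ⟨⟨hj1, hj | hj | hj⟩, hjX⟩
      · exact Or.inl (Or.inl ⟨hj1, hjX, hj⟩)
      · exact Or.inl (Or.inr ⟨hj.1, hjX, hj.2⟩)
      · exact Or.inr ⟨hj.1, hjX, hj.2⟩
    have h4 : {x | x ∈ S n ∧ ((x : ℕ) : ℝ) ≤ X}.ncard ≤ A1.ncard + A2.ncard + A3.ncard :=
      (Set.ncard_le_ncard hsub ((hf1.union hf2).union hf3)).trans
        ((Set.ncard_union_le _ _).trans (Nat.add_le_add_right (Set.ncard_union_le _ _) _))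
    have h5 : ({x | x ∈ S n ∧ ((x : ℕ) : ℝ) ≤ X}.ncard : ℝ) ≤
        C * X / (y n) ^ (1 / 20 : ℝ) + C * X / (y n) ^ (1 / 20 : ℝ) + C * X / (y n) ^ (1 / 20 : ℝ) := by
      refine le_trans ?_ (add_le_add (add_le_add h1 h2) h3)
      exact_mod_cast h4
    refine h5.trans (le_of_eq ?_)
    rw [Real.rpow_neg (by linarith [hy n])]
    field_simp
    ring
  intro n X hX
  have hEq : {x | x ∈ {j : ℕ | 1 ≤ j ∧ ¬ Low (y n) j} ∧ ((x : ℕ) : ℝ) ≤ X} ⊆ {x | x ∈ S n ∧ ((x : ℕ) : ℝ) ≤ X} := by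
    rintro j ⟨⟨hj, hx⟩, hxX⟩
    refine ⟨?_, hxX⟩
    by_contra hcon
    apply hx
    rw [hS] at hcon
    refine ⟨?_, fun hodd => hex j hodd, fun hodd x hx1 hx2 hx3 => ⟨?_, fun z hz hzx => ?_⟩⟩
    · by_contra h1
      exact hcon ⟨hj, Or.inl h1⟩
    · by_contra h1
      push Not at h1
      exact hcon ⟨hj, Or.inr (Or.inl ⟨hodd, x, hx1, hx2, hx3, h1⟩)⟩
    · by_contra h1
      push Not at h1
      exact hcon ⟨hj, Or.inr (Or.inr ⟨hodd, x, hx1, hx2, hx3, z, hz, hzx, h1⟩)⟩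
  obtain ⟨h1, h2⟩ := key n X hX
  refine ⟨h1.subset hEq, le_trans ?_ h2⟩
  exact_mod_cast Set.ncard_le_ncard hEq h1

/-- **Theorem.** Let `y_n ≥ 1` and `L_n ≥ 0`.
(1) Let `g_n` be starshaped functions on `(a, ∞)`, bounded below by a positive constant at each point, such that for all
`t > s > a` the sum of `L_n y_n ^ (-1/20) (1 + log (g_n(t) / g_n(s)))` converges and `L_n ≤ g_n(s)` for all large `n`. Then
for almost every `α > a` and all but finitely many `n`, EVERY positive integer `j` with `|j - g_n(α)| ≤ L_n` has the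
property `Low (y_n)`: an iterate of `f` carries `J j` into `J m` for some `1 ≤ m ≤ y_n`, and so on.
(2) If `v_n ≥ 1`, the sum of `v_n L_n y_n ^ (-1/20)` converges and for each `s > 1` one has `L_n ≤ s ^ (v_n)` for all large
`n`, then the same is true for `g_n(α) = α ^ (v_n)` and almost every `α > 1`. -/
theorem result (y L : ℕ → ℝ) (hy : ∀ n, 1 ≤ y n) (hL : ∀ n, 0 ≤ L n) :
    (∀ (a : ℝ) (g : ℕ → ℝ → ℝ), Starshaped a g → (∀ s : ℝ, a < s → ∃ b : ℝ, 0 < b ∧ ∀ n, b ≤ g n s) →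
      (∀ s : ℝ, a < s → ∀ᶠ n in atTop, L n ≤ g n s) →
      (∀ s t : ℝ, a < s → s ≤ t →
        Summable fun n => L n * (y n) ^ (-(1 / 20) : ℝ) * (1 + Real.log (g n t / g n s))) →
      ∃ N : Set ℝ, volume N = 0 ∧ ∀ α : ℝ, a < α → α ∉ N → ∃ n₀ : ℕ, ∀ n : ℕ, n₀ ≤ n →
        ∀ j : ℕ, 1 ≤ j → |(j : ℝ) - g n α| ≤ L n → Low (y n) j) ∧
    (∀ v : ℕ → ℝ, (∀ n, 1 ≤ v n) → (∀ s : ℝ, 1 < s → ∀ᶠ n in atTop, L n ≤ s ^ (v n)) →
      (Summable fun n => v n * L n * (y n) ^ (-(1 / 20) : ℝ)) →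
      ∃ N : Set ℝ, volume N = 0 ∧ ∀ α : ℝ, 1 < α → α ∉ N → ∃ n₀ : ℕ, ∀ n : ℕ, n₀ ≤ n →
        ∀ j : ℕ, 1 ≤ j → |(j : ℝ) - α ^ (v n)| ≤ L n → Low (y n) j) := by
  obtain ⟨C, hC, hcount⟩ := key
  have hnn : ∀ n, 0 ≤ 3 * C * (y n) ^ (-(1 / 20) : ℝ) := fun n => by
    have := hy n
    positivity
  refine ⟨fun a g hg hb hLg hsum => ?_, fun v hv hLg hsum => ?_⟩
  · obtain ⟨N, hN, hN2⟩ := Pool.Agent.R482.ST.ae_windows (fun n => {j : ℕ | 1 ≤ j ∧ ¬ Low (y n) j})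
      (fun x : ℕ => (x : ℝ)) hg hb (C := fun n => 3 * C * (y n) ^ (-(1 / 20) : ℝ)) hnn hL hLg (fun s t hs hst => by
        refine ((hsum s t hs hst).mul_left (3 * C)).congr fun n => ?_
        ring) (hcount y hy)
    refine ⟨N, hN, fun α hα hαN => ?_⟩
    obtain ⟨n₀, hn⟩ := hN2 α hα hαN
    refine ⟨n₀, fun n hn1 j hj hw => ?_⟩
    by_contra hcon
    exact absurd (hn n hn1 j ⟨hj, hcon⟩) (not_lt.2 hw)
  · obtain ⟨N, hN, hN2⟩ := Pool.Agent.R482.ST.pow_ae_windows (fun n => {j : ℕ | 1 ≤ j ∧ ¬ Low (y n) j})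
      (fun x : ℕ => (x : ℝ)) hv (C := fun n => 3 * C * (y n) ^ (-(1 / 20) : ℝ)) hnn hL hLg (by
        refine (hsum.mul_left (3 * C)).congr fun n => ?_
        ring) (hcount y hy)
    refine ⟨N, hN, fun α hα hαN => ?_⟩
    obtain ⟨n₀, hn⟩ := hN2 α hα hαN
    refine ⟨n₀, fun n hn1 j hj hw => ?_⟩
    by_contra hcon
    exact absurd (hn n hn1 j ⟨hj, hcon⟩) (not_lt.2 hw)

end Pool.Agent.Results.MP_a247fa_nt.CriticalNearPowers
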