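import Pool.Agent.R630.WD.Crit
import Pool.Agent.R468.RC.P

/-!
THE LOCAL LIMIT LAW FOR THE ARRIVAL TIMES OF THE CRITICAL ORBITS of Chamberland's real extension of the
`3x+1` map.

Author: helper468. Uses the local limit law of the total stopping time in residue classes
(Pool/Agent/R468/GL, Pool/Agent/R468/RC) and the trap theorem of Pool/Agent/H934R2/Ch (the orbit of the
critical point above an odd `n` follows the orbit of `n`).
-/

set_option autoImplicit false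

namespace Pool.Agent.Results.MP_a247fa_nt.CriticalOrbitsLocalLaw

open Filter Topology

/-- Chamberland's map. -/
noncomputable def f (x : ℝ) : ℝ := x + 1 / 4 - (2 * x + 1) / 4 * Real.cos (Real.pi * x)

/-- Points of attracting cycles contained in `(0,∞)`. -/
def AttractingPoint (y : ℝ) : Prop :=
  0 < y ∧ 0 < Function.minimalPeriod f y ∧ |deriv (f^[Function.minimalPeriod f y]) y| < 1

/-- The orbit of `x` converges to the cycle of `y`. -/
def Attracts (y x : ℝ) : Prop :=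
  ∃ j : ℕ, Tendsto (fun k : ℕ => f^[k * Function.minimalPeriod f y + j] x) atTop (𝓝 y)

/-- `x` is attracted by the cycle `A₁ = {1, 2}` or by the cycle `A₂ = {a, f a}`, or its orbit ends in a
point of `[1.02, 1.05]` of period two. -/
def KnownFate (a x : ℝ) : Prop :=
  Attracts 1 x ∨ Attracts a x ∨ ∃ K, f^[K] x ∈ Set.Icc (1.02 : ℝ) 1.05 ∧ f^[K + 2] x = f^[K] x

/-- Among the odd positive integers the property `P` has natural density `δ`. -/
def OddDensity (P : ℕ → Prop) (δ : ℝ) : Prop :=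
  Tendsto (fun N : ℕ => 2 * ({n : ℕ | n ≤ N ∧ n % 2 = 1 ∧ P n}.ncard : ℝ) / N) atTop (𝓝 δ)

/-- The orbit of `y` enters the interval `[1, 2)` for the first time after exactly `k` steps. -/
def EntersAt (y : ℝ) (k : ℕ) : Prop :=
  f^[k] y ∈ Set.Ico (1 : ℝ) 2 ∧ ∀ j < k, f^[j] y ∉ Set.Ico (1 : ℝ) 2

/-- The number of the positive integers `n ≤ x`, `n ≡ r` modulo `q`, such that the orbits of
`c n, c (n + 2), ..., c (n + 2 h)` all enter `[1, 2)` for the first time after exactly `k` steps. -/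
noncomputable def N (c : ℕ → ℝ) (q r h : ℕ) (x : ℝ) (k : ℕ) : ℕ :=
  {n : ℕ | 1 ≤ n ∧ (n : ℝ) ≤ x ∧ n ≡ r [MOD q] ∧ ∀ i ≤ h, EntersAt (c (n + 2 * i)) k}.ncard

/-- the constant of the mean value -/
noncomputable def μ : ℝ := 2 / Real.log (4 / 3)

/-- the constant of the variance -/
noncomputable def σ2 : ℝ := 2 * Real.log 3 ^ 2 / Real.log (4 / 3) ^ 3

/-- the value at `k` of the density of the normal distribution of mean `μ log x` and variance
`σ2 log x` -/
noncomputable def g (x : ℝ) (k : ℕ) : ℝ :=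
  Real.exp (-(((k : ℝ) - μ * Real.log x) ^ 2 / (2 * (σ2 * Real.log x)))) /
    Real.sqrt (2 * Real.pi * (σ2 * Real.log x))

open Pool.Agent.R630.WD.Cr (Fol fol_floor T)

theorem enters_iff {n : ℕ} (hn : 1 ≤ n) {y : ℝ} (hy : Fol n y) (k : ℕ) :
    EntersAt y k ↔ Pool.Agent.H499R2.HL.H k n := by
  have h1 : ∀ j : ℕ, f^[j] y ∈ Set.Ico (1 : ℝ) 2 ↔ T^[j] n = 1 := by
    intro j
    have h2 := fol_floor hn hy j
    have h3 : ⌊f^[j] y⌋ = ((T^[j] n : ℕ) : ℤ) := h2
    constructor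
    · intro h4
      have h5 : ⌊f^[j] y⌋ = 1 := by
        rw [Int.floor_eq_iff]
        push_cast
        exact ⟨h4.1, by linarith [h4.2]⟩
      rw [h3] at h5
      exact_mod_cast h5
    · intro h4
      rw [h4] at h3
      rw [Int.floor_eq_iff] at h3
      push_cast at h3
      exact ⟨h3.1, by linarith [h3.2]⟩
  constructor
  · rintro ⟨h2, h3⟩
    exact ⟨(h1 k).1 h2, fun j hj h => h3 j hj ((h1 j).2 h)⟩
  · rintro ⟨h2, h3⟩
    exact ⟨(h1 k).2 h2, fun j hj h => h3 j hj ((h1 j).1 h)⟩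

theorem enters_ex {n : ℕ} (hn : 1 ≤ n) {y : ℝ} (hy : Fol n y) :
    (∃ k, EntersAt y k) ↔ ∃ k, T^[k] n = 1 := by
  classical
  constructor
  · rintro ⟨k, hk⟩
    exact ⟨k, ((enters_iff hn hy k).1 hk).1⟩
  · intro h
    refine ⟨Nat.find h, (enters_iff hn hy _).2 ⟨Nat.find_spec h, fun j hj h' => Nat.find_min h hj h'⟩⟩

theorem all_of_odd (h : ∀ n : ℕ, n % 2 = 1 → ∃ k, T^[k] n = 1) : ∀ n : ℕ, 1 ≤ n → ∃ k, T^[k] n = 1 := by
  intro n
  induction n using Nat.strong_induction_on with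
  | _ n ih =>
    intro hn
    rcases Nat.mod_two_eq_zero_or_one n with h1 | h1
    · obtain ⟨k, hk⟩ := ih (n / 2) (by omega) (by omega)
      refine ⟨k + 1, ?_⟩
      rw [Function.iterate_succ_apply]
      have : T n = n / 2 := by unfold T; rw [if_pos h1]
      rw [this]
      exact hk
    · exact h n h1

/-- THE LOCAL LIMIT LAW OF THE CRITICAL ORBITS. There are `a`, `δ`, `c n` (`n` odd) and `Ψ` such that

* `a` belongs to the attracting cycle `A₂ = {a, f a}` with `1.19 ≤ a ≤ 1.196`, and for odd `n` the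
  number `c n` is the only critical point of `f` in `(n, n + 1/2)`;
* for odd `n` the orbit of `c n` enters `[1, 2)` iff `c n` is of known fate (attracted by `A₁ = {1, 2}`
  or `A₂`, or ending in a point of `[1.02, 1.05]` of period two);
* `0 < δ ≤ 1`, `δ` is the density, among the odd `n`, of the `n` for which this happens, and `δ = 1` iff
  it happens for all odd `n`;
* `Ψ` is continuous, has period one, lies between `δ (log 3) / 2` and `3 δ (log 3) / 2`, and its mean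
  is `δ`;
* for every even `q ≥ 2`, odd `r` and `h ≥ 0` the number of the `n ≤ x`, `n ≡ r` modulo `q`, for which
  the orbits of the critical points `c n, c (n + 2), ..., c (n + 2 h)` all enter `[1, 2)` for the first
  time after exactly `k` steps is `(1/q) x g(x, k) (Ψ (log_3 (x / 2^k)) + o(1))`, uniformly for
  `|k - μ log x| ≤ K √(log x)`, for every `K`. -/
theorem result : ∃ (a : ℝ) (c : ℕ → ℝ) (δ : ℝ) (Ψ : ℝ → ℝ),
    (a ∈ Set.Icc (1.19 : ℝ) 1.196 ∧ f (f a) = a ∧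
      ∀ y, y = 1 ∨ y = 2 ∨ y = a ∨ y = f a → AttractingPoint y) ∧
    (∀ n : ℕ, n % 2 = 1 → (n : ℝ) < c n ∧ c n < n + 1 / 2 ∧ deriv f (c n) = 0 ∧
      ∀ x : ℝ, (n : ℝ) < x → x < n + 1 / 2 → deriv f x = 0 → x = c n) ∧
    (∀ n : ℕ, n % 2 = 1 → ((∃ k : ℕ, EntersAt (c n) k) ↔ KnownFate a (c n))) ∧
    0 < δ ∧ δ ≤ 1 ∧ (δ = 1 ↔ ∀ n : ℕ, n % 2 = 1 → KnownFate a (c n)) ∧
    OddDensity (fun n => KnownFate a (c n)) δ ∧
    Continuous Ψ ∧ (∀ u : ℝ, Ψ (u + 1) = Ψ u) ∧
    (∀ u : ℝ, δ * (Real.log 3 / 2) ≤ Ψ u ∧ Ψ u ≤ δ * (3 * Real.log 3 / 2)) ∧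
    (∫ u in (0 : ℝ)..1, Ψ u = δ) ∧
    ∀ (q r h : ℕ), 1 ≤ q → q % 2 = 0 → r % 2 = 1 → ∀ K ε : ℝ, 0 < ε → ∃ X₀ : ℝ, ∀ x : ℝ, X₀ ≤ x →
      ∀ k : ℕ, |(k : ℝ) - μ * Real.log x| ≤ K * Real.sqrt (Real.log x) →
      |(N c q r h x k : ℝ) / (x * g x k) - 1 / q * Ψ (Real.logb 3 (x / 2 ^ k))| ≤ ε := by
  obtain ⟨a, c, h1, h2, h3, h4⟩ := Pool.Agent.R630.WD.Cr.crit
  obtain ⟨δ, Ψ, k1, k2, k3, k4, k5, k6, k7, k8, k9⟩ := Pool.Agent.R468.RC.main_steps
  have hkf : ∀ n : ℕ, n % 2 = 1 → ((∃ k : ℕ, EntersAt (c n) k) ↔ KnownFate a (c n)) := by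
    intro n hn
    rw [enters_ex (by omega) (h3 n hn)]
    exact (h4 n hn).symm
  refine ⟨a, c, δ, Ψ, h1, h2, hkf, k1, k2, ?_, ?_, k5, k6, k7, k8, ?_⟩
  · rw [k3]
    constructor
    · intro h n hn
      exact (h4 n hn).2 (h n (by omega))
    · intro h
      exact all_of_odd fun n hn => (h4 n hn).1 (h n hn)
  · -- the density among the odd integers
    have hS := Pool.Agent.R630.WD.Cr.mer_T 1
    refine Pool.Agent.R630.WD.Cr.odd_density (S := {x | Pool.Agent.H723R2.LSW.Mer x 1}) hS ?_ ?_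
    · refine k4.congr fun M => ?_
      unfold Pool.Agent.H499R2.ND.cnt
      congr 2
      have e : {n : ℤ | 0 < 1 * n ∧ 1 * n ≤ M ∧ n ∈ {x | Pool.Agent.H723R2.LSW.Mer x 1}} =
          (fun n : ℕ => (n : ℤ)) '' {n : ℕ | 1 ≤ n ∧ n ≤ M ∧ ∃ k : ℕ, Pool.Agent.H499R2.ND.Tn^[k] n = 1} := by
        ext z
        rw [Set.mem_image]
        constructor
        · rintro ⟨e1, e2, e3⟩
          refine ⟨z.toNat, ⟨by omega, by omega, ?_⟩, by omega⟩
          have e4 : ((z.toNat : ℕ) : ℤ) = z := by omega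
          have e5 : Pool.Agent.H723R2.LSW.Mer ((z.toNat : ℕ) : ℤ) ((1 : ℕ) : ℤ) := by
            rw [e4]; exact e3
          exact (Pool.Agent.R630.WD.Cr.reach_mer (m := 1) (p := 2) (by norm_num) rfl).1 e5
        · rintro ⟨n, ⟨e1, e2, e3⟩, rfl⟩
          refine ⟨by omega, by omega, ?_⟩
          exact (Pool.Agent.R630.WD.Cr.reach_mer (m := 1) (p := 2) (by norm_num) rfl).2 e3
      rw [e, Set.ncard_image_of_injective _ (fun a b h => by exact_mod_cast h)]
    · intro n hn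
      exact (h4 n hn).trans (Pool.Agent.R630.WD.Cr.reach_mer (m := 1) (p := 2) (by norm_num) rfl).symm
  · intro q r h hq hq2 hr2 K ε hε
    obtain ⟨X₀, hX₀⟩ := k9 q r h 2 hq K ε hε
    refine ⟨X₀, fun x hx k hk => ?_⟩
    have e : {n : ℕ | 1 ≤ n ∧ (n : ℝ) ≤ x ∧ n ≡ r [MOD q] ∧ ∀ i ≤ h, EntersAt (c (n + 2 * i)) k} =
        {n : ℕ | 1 ≤ n ∧ (n : ℝ) ≤ x ∧ n ≡ r [MOD q] ∧ ∀ i ≤ h, Pool.Agent.H499R2.HL.H k (n + 2 * i)} := by
      ext n
      rw [Set.mem_ofPred_eq, Set.mem_ofPred_eq]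
      refine and_congr_right fun e1 => and_congr_right fun _ => and_congr_right fun e3 => ?_
      have e4 : n % 2 = 1 := by
        have h5 : n ≡ r [MOD 2] := e3.of_dvd (Nat.dvd_of_mod_eq_zero hq2)
        have h6 : n % 2 = r % 2 := h5
        rw [h6, hr2]
      refine forall_congr' fun i => forall_congr' fun _ => ?_
      exact enters_iff (by omega) (h3 (n + 2 * i) (by omega)) k
    have := hX₀ x hx k hk
    rw [← e] at this
    exact this

end Pool.Agent.Results.MP_a247fa_nt.CriticalOrbitsLocalLaw
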