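import Mathlib
import Pool.Agent.R630.WD.Crit
import Pool.Agent.Results.MP_ff4775_nt.ProductsOfTwoPrimes

/-!
# The critical points of Chamberland's map above the products of two primes

The critical points of known fate, those whose orbits tend to infinity and those whose orbits merge
with a given one are equidistributed above the products `p q` of two primes in a bilinear sense, for
arbitrary sets of primes `p` and `q`, and the properties of the critical points above the products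
`p i * q j` of a matrix are asymptotically independent.
-/

set_option autoImplicit false

open Filter Topology Set

namespace Pool.Agent.Results.MP_a247fa_nt.CriticalPointsAtPrimeProducts

/-- Chamberland's map. -/
noncomputable def f (x : ℝ) : ℝ := x + 1 / 4 - (2 * x + 1) / 4 * Real.cos (Real.pi * x)

/-- Points of attracting cycles contained in `(0,∞)`. -/
def AttractingPoint (y : ℝ) : Prop :=
  0 < y ∧ 0 < Function.minimalPeriod f y ∧ |deriv (f^[Function.minimalPeriod f y]) y| < 1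

/-- The orbit of `x` converges to the cycle of `y`. -/
def Attracts (y x : ℝ) : Prop :=
  ∃ j : ℕ, Tendsto (fun k : ℕ => f^[k * Function.minimalPeriod f y + j] x) atTop (𝓝 y)

/-- `x` is attracted by the cycle `A₁ = {1, 2}` or by the cycle `A₂ = {a, f a}`, or its orbit ends in a
point of `[1.02, 1.05]` of period two. -/
def KnownFate (a x : ℝ) : Prop :=
  Attracts 1 x ∨ Attracts a x ∨ ∃ K, f^[K] x ∈ Set.Icc (1.02 : ℝ) 1.05 ∧ f^[K + 2] x = f^[K] x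

/-- The orbits of `x` and `y` have, from some times on, the same integral parts. -/
def Merge (x y : ℝ) : Prop := ∃ i j : ℕ, ∀ k : ℕ, ⌊f^[k + i] x⌋ = ⌊f^[k + j] y⌋

/-- `P` is one of the following properties of odd `n`, or the negation of one of them: `c n` is of known
fate; the orbit of `c n` tends to infinity; the orbit of `c n` merges with that of `c m` (`m` odd). -/
def Kind (a : ℝ) (c : ℕ → ℝ) (P : ℕ → Prop) : Prop :=
  ∃ P' : ℕ → Prop, (P' = (fun n => KnownFate a (c n)) ∨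
    P' = (fun n => Tendsto (fun k : ℕ => f^[k] (c n)) atTop atTop) ∨
    ∃ m : ℕ, m % 2 = 1 ∧ P' = fun n => Merge (c n) (c m)) ∧ (P = P' ∨ P = fun n => ¬ P' n)

/-- Among the odd positive integers the property `P` has natural density `δ`. -/
def OddDensity (P : ℕ → Prop) (δ : ℝ) : Prop :=
  Tendsto (fun N : ℕ => 2 * ({n : ℕ | n ≤ N ∧ n % 2 = 1 ∧ P n}.ncard : ℝ) / N) atTop (𝓝 δ)

/-- The number of the pairs of primes `p`, `q` with `N ^ α ≤ p ≤ N ^ β` and `r p q ≤ N`. -/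
noncomputable def AllPairs (α β : ℝ) (r N : ℕ) : ℕ :=
  {z : ℕ × ℕ | (z.1.Prime ∧ (N : ℝ) ^ α ≤ z.1 ∧ (z.1 : ℝ) ≤ (N : ℝ) ^ β) ∧
    z.2.Prime ∧ r * z.1 * z.2 ≤ N}.ncard

/-- The number of the pairs of odd primes `p ∈ A`, `q ∈ B` with `N ^ α ≤ p ≤ N ^ β`, `r p q ≤ N` and
`P (r p q)`. -/
noncomputable def Pairs (P : ℕ → Prop) (A B : Set ℕ) (α β : ℝ) (r N : ℕ) : ℕ :=
  {z : ℕ × ℕ | (z.1.Prime ∧ z.1 % 2 = 1 ∧ z.1 ∈ A ∧ (N : ℝ) ^ α ≤ z.1 ∧ (z.1 : ℝ) ≤ (N : ℝ) ^ β) ∧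
    (z.2.Prime ∧ z.2 % 2 = 1 ∧ z.2 ∈ B) ∧ r * z.1 * z.2 ≤ N ∧ P (r * z.1 * z.2)}.ncard

/-- The number of the tuples of odd primes `p i ∈ A i` in `(R, 2 R]` (`i < k`) and `q j ∈ B j` in `[1, N]`
(`j < l`) with `P i j (p i * q j)` for all `i` and `j`. -/
noncomputable def Tuples {k l : ℕ} (P : Fin k → Fin l → ℕ → Prop) (A : Fin k → Set ℕ)
    (B : Fin l → Set ℕ) (R : ℝ) (N : ℕ) : ℕ :=
  {z : (Fin k → ℕ) × (Fin l → ℕ) |
    (∀ i, (z.1 i).Prime ∧ z.1 i % 2 = 1 ∧ z.1 i ∈ A i ∧ R < z.1 i ∧ (z.1 i : ℝ) ≤ 2 * R) ∧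
    (∀ j, (z.2 j).Prime ∧ z.2 j % 2 = 1 ∧ z.2 j ∈ B j ∧ z.2 j ≤ N) ∧
    ∀ i j, P i j (z.1 i * z.2 j)}.ncard

/-- The number of the tuples of primes `p i` in `(R, 2 R]` (`i < k`) and `q j` in `[1, N]` (`j < l`). -/
noncomputable def AllTuples (k l : ℕ) (R : ℝ) (N : ℕ) : ℕ :=
  {p : ℕ | p.Prime ∧ R < p ∧ (p : ℝ) ≤ 2 * R}.ncard ^ k * {q : ℕ | q.Prime ∧ q ≤ N}.ncard ^ l

open Pool.Agent.R630.WD.Cr (Fol fol_floor zT kind_set odd_density)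

/-- the odd elements of a set -/
def Od (A : Set ℕ) : Set ℕ := {n | n % 2 = 1 ∧ n ∈ A}

theorem all_eq (s : ℤ) (α β : ℝ) (r N : ℕ) : AllPairs α β r N =
    Pool.Agent.Results.MP_ff4775_nt.ProductsOfTwoPrimes.Pairs s Set.univ Set.univ Set.univ α β r N := by
  unfold AllPairs Pool.Agent.Results.MP_ff4775_nt.ProductsOfTwoPrimes.Pairs
  simp only [Set.mem_univ, true_and, and_true]

theorem odd3 {r p q : ℕ} (hr : r % 2 = 1) (hp : p % 2 = 1) (hq : q % 2 = 1) : (r * p * q) % 2 = 1 := by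
  rw [Nat.mul_mod, Nat.mul_mod r p, hr, hp, hq]

theorem pairs_eq {S : Set ℤ} {P : ℕ → Prop} (h : ∀ n : ℕ, n % 2 = 1 → (P n ↔ (n : ℤ) ∈ S))
    (A B : Set ℕ) (α β : ℝ) {r : ℕ} (hr : r % 2 = 1) (N : ℕ) : Pairs P A B α β r N =
    Pool.Agent.Results.MP_ff4775_nt.ProductsOfTwoPrimes.Pairs 1 S (Od A) (Od B) α β r N := by
  unfold Pairs Pool.Agent.Results.MP_ff4775_nt.ProductsOfTwoPrimes.Pairs
  congr 1
  ext ⟨p, q⟩
  simp only [Set.mem_ofPred_eq, Od]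
  constructor
  · rintro ⟨⟨h1, h2, h3, h4, h5⟩, ⟨h6, h7, h8⟩, h9, h10⟩
    refine ⟨⟨h1, ⟨h2, h3⟩, h4, h5⟩, ⟨h6, h7, h8⟩, h9, ?_⟩
    rw [one_mul, ← h _ (odd3 hr h2 h7)]
    exact h10
  · rintro ⟨⟨h1, ⟨h2, h3⟩, h4, h5⟩, ⟨h6, h7, h8⟩, h9, h10⟩
    refine ⟨⟨h1, h2, h3, h4, h5⟩, ⟨h6, h7, h8⟩, h9, ?_⟩
    rw [one_mul, ← h _ (odd3 hr h2 h7)] at h10
    exact h10

theorem tuples_eq {k l : ℕ} {S : Fin k → Fin l → Set ℤ} {P : Fin k → Fin l → ℕ → Prop}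
    (h : ∀ i j, ∀ n : ℕ, n % 2 = 1 → (P i j n ↔ (n : ℤ) ∈ S i j))
    (A : Fin k → Set ℕ) (B : Fin l → Set ℕ) (R : ℝ) (N : ℕ) : Tuples P A B R N =
    Pool.Agent.Results.MP_ff4775_nt.ProductsOfTwoPrimes.Tuples 1 S (fun i => Od (A i)) (fun j => Od (B j))
      R N := by
  unfold Tuples Pool.Agent.Results.MP_ff4775_nt.ProductsOfTwoPrimes.Tuples
  congr 1
  ext ⟨p, q⟩
  simp only [Set.mem_ofPred_eq, Od]
  have hodd : ∀ {x y : ℕ}, x % 2 = 1 → y % 2 = 1 → (x * y) % 2 = 1 := by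
    intro x y hx hy
    rw [Nat.mul_mod, hx, hy]
  constructor
  · rintro ⟨h1, h2, h3⟩
    refine ⟨fun i => ⟨(h1 i).1, ⟨(h1 i).2.1, (h1 i).2.2.1⟩, (h1 i).2.2.2⟩,
      fun j => ⟨(h2 j).1, ⟨(h2 j).2.1, (h2 j).2.2.1⟩, (h2 j).2.2.2⟩, fun i j => ?_⟩
    rw [one_mul, ← h i j _ (hodd (h1 i).2.1 (h2 j).2.1)]
    exact h3 i j
  · rintro ⟨h1, h2, h3⟩
    refine ⟨fun i => ⟨(h1 i).1, (h1 i).2.1.1, (h1 i).2.1.2, (h1 i).2.2⟩,
      fun j => ⟨(h2 j).1, (h2 j).2.1.1, (h2 j).2.1.2, (h2 j).2.2⟩, fun i j => ?_⟩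
    rw [h i j _ (hodd (h1 i).2.1.1 (h2 j).2.1.1)]
    have := h3 i j
    rwa [one_mul] at this

/-- THE CRITICAL POINTS OF CHAMBERLAND'S MAP ABOVE THE PRODUCTS OF TWO PRIMES.
For odd `n` let `c n` be the critical point of `f` in `(n, n + 1/2)`.
(0) Each of the following properties of odd `n`, and its negation, has a natural density `δ` among the odd
positive integers, which is positive if and only if there is such an `n`: `c n` is of known fate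
(attracted by `A₁` or `A₂`, or ending in a point of `[1.02, 1.05]` of period two); the orbit of `c n`
tends to infinity; the orbit of `c n` merges with that of `c m`, `m` odd (from some times on, both have
the same integral parts).
(1) BILINEAR ESTIMATE. Let `ε > 0`. There is `ϑ > 0` such that for `0 < α < β ≤ ϑ` and `N ≥ N₀ (ε, α, β)`,
for all these properties `P`, all odd `r ≤ N ^ ϑ` and ARBITRARY sets `A`, `B`: among the products of two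
odd primes `p ∈ A`, `q ∈ B` with `N ^ α ≤ p ≤ N ^ β` and `r p q ≤ N`, the number of those with
`P (r p q)` is `δ` times the number of all, up to `ε` times the number of all pairs of primes `p`, `q`
with `N ^ α ≤ p ≤ N ^ β` and `r p q ≤ N`.
(2) PATTERNS. Let `ε > 0`. There is `ϑ > 0` such that for `α > 0`, `N ≥ N₀` and `N ^ α ≤ R ≤ N ^ ϑ`: the
number of the tuples of odd primes `p i ∈ A i` in `(R, 2 R]` and `q j ∈ B j` in `[1, N]`, with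
`P i j (p i * q j)` for all `i < k` and `j < l`, is the product of the densities of the properties
`P i j` times the number of all such tuples, up to `ε (π (2 R) - π (R)) ^ k π (N) ^ l`.
(3) If one critical point `c n` has the property `P` (for example, if it is not of known fate, or if its
orbit tends to infinity), then so has some `c (p q)` with primes `p ∈ A`, `q ∈ B`, for any `A`, `B`
containing, for a suitable `N`, a positive proportion `κ` of the pairs in (1), `β ≤ ϑ (κ)`; and every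
matrix of properties which are not void occurs as the pattern of the critical points above the products
`p i * q j` in (2) with a positive proportion, also for `p i ∈ A i` and `q j ∈ B j` when a positive
proportion of all tuples is in these sets. -/
theorem result : ∃ (a : ℝ) (c : ℕ → ℝ),
    (a ∈ Set.Icc (1.19 : ℝ) 1.196 ∧ f (f a) = a ∧
      ∀ y, y = 1 ∨ y = 2 ∨ y = a ∨ y = f a → AttractingPoint y) ∧
    (∀ n : ℕ, n % 2 = 1 → (n : ℝ) < c n ∧ c n < n + 1 / 2 ∧ deriv f (c n) = 0 ∧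
      ∀ x : ℝ, (n : ℝ) < x → x < n + 1 / 2 → deriv f x = 0 → x = c n) ∧
    (∀ P : ℕ → Prop, Kind a c P → ∃ δ : ℝ, 0 ≤ δ ∧ δ ≤ 1 ∧ OddDensity P δ ∧
      (0 < δ ↔ ∃ n : ℕ, n % 2 = 1 ∧ P n)) ∧
    (∀ ε : ℝ, 0 < ε → ∃ ϑ : ℝ, 0 < ϑ ∧ ∀ α β : ℝ, 0 < α → α < β → β ≤ ϑ → ∃ N₀ : ℕ, ∀ N : ℕ, N₀ ≤ N →
      ∀ (P : ℕ → Prop) (δ : ℝ), Kind a c P → OddDensity P δ → ∀ r : ℕ, r % 2 = 1 →
      (r : ℝ) ≤ (N : ℝ) ^ ϑ → 0 < AllPairs α β r N ∧ ∀ A B : Set ℕ,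
      |(Pairs P A B α β r N : ℝ) - δ * Pairs (fun _ => True) A B α β r N| ≤
        ε * AllPairs α β r N) ∧
    (∀ (k l : ℕ) (ε : ℝ), 0 < ε → ∃ ϑ : ℝ, 0 < ϑ ∧ ∀ α : ℝ, 0 < α → ∃ N₀ : ℕ, ∀ N : ℕ, N₀ ≤ N →
      ∀ R : ℝ, (N : ℝ) ^ α ≤ R → R ≤ (N : ℝ) ^ ϑ →
      ∀ (P : Fin k → Fin l → ℕ → Prop) (δ : Fin k → Fin l → ℝ),
      (∀ i j, Kind a c (P i j) ∧ OddDensity (P i j) (δ i j)) →
      0 < AllTuples k l R N ∧ ∀ (A : Fin k → Set ℕ) (B : Fin l → Set ℕ),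
      |(Tuples P A B R N : ℝ) - (∏ i, ∏ j, δ i j) *
        Tuples (fun (_ : Fin k) (_ : Fin l) (_ : ℕ) => True) A B R N| ≤ ε * AllTuples k l R N) ∧
    (∀ P : ℕ → Prop, Kind a c P → (∃ n : ℕ, n % 2 = 1 ∧ P n) → ∃ δ : ℝ, 0 < δ ∧ OddDensity P δ ∧
      ∀ κ : ℝ, 0 < κ → ∃ ϑ : ℝ, 0 < ϑ ∧ ∀ α β : ℝ, 0 < α → α < β → β ≤ ϑ → ∃ N₀ : ℕ,
        ∀ N : ℕ, N₀ ≤ N → ∀ A B : Set ℕ,
        κ * AllPairs α β 1 N ≤ Pairs (fun _ => True) A B α β 1 N →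
        δ / 2 * Pairs (fun _ => True) A B α β 1 N ≤ Pairs P A B α β 1 N ∧
        ∃ p ∈ A, ∃ q ∈ B, p.Prime ∧ q.Prime ∧ p % 2 = 1 ∧ q % 2 = 1 ∧ p * q ≤ N ∧ P (p * q)) ∧
    (∀ (k l : ℕ) (P : Fin k → Fin l → ℕ → Prop),
      (∀ i j, Kind a c (P i j) ∧ ∃ n : ℕ, n % 2 = 1 ∧ P i j n) →
        ∃ C : ℝ, 0 < C ∧ ∀ κ : ℝ, 0 < κ → ∃ ϑ : ℝ, 0 < ϑ ∧
        ∀ α : ℝ, 0 < α → ∃ N₀ : ℕ, ∀ N : ℕ, N₀ ≤ N → ∀ R : ℝ, (N : ℝ) ^ α ≤ R → R ≤ (N : ℝ) ^ ϑ →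
        0 < AllTuples k l R N ∧ ∀ (A : Fin k → Set ℕ) (B : Fin l → Set ℕ),
        κ * AllTuples k l R N ≤ Tuples (fun (_ : Fin k) (_ : Fin l) (_ : ℕ) => True) A B R N →
        C * Tuples (fun (_ : Fin k) (_ : Fin l) (_ : ℕ) => True) A B R N ≤ Tuples P A B R N) := by
  obtain ⟨a, c, hA, hC, hfol, hkf⟩ := Pool.Agent.R630.WD.Cr.crit
  obtain ⟨-, r1, r2, -⟩ := Pool.Agent.Results.MP_ff4775_nt.ProductsOfTwoPrimes.result 1 (Or.inl rfl)
  have hset : ∀ P : ℕ → Prop, Kind a c P → ∃ S : Set ℤ,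
      (∀ x : ℤ, x ∈ S ↔ Pool.Agent.H723R2.LSW.T x ∈ S) ∧ ∀ n : ℕ, n % 2 = 1 → (P n ↔ (n : ℤ) ∈ S) :=
    fun P hP => kind_set (a := a) hfol hkf hP
  have p0 : ∀ P : ℕ → Prop, Kind a c P → ∃ δ : ℝ, 0 ≤ δ ∧ δ ≤ 1 ∧ OddDensity P δ ∧
      (0 < δ ↔ ∃ n : ℕ, n % 2 = 1 ∧ P n) := by
    intro P hP
    obtain ⟨S, h1, h2⟩ := hset P hP
    obtain ⟨δ, h3, h4, h5⟩ := Pool.Agent.H499R2.ND.dens_side odd_one
      isCoprime_one_left (s := 1) (Or.inl rfl) (S := S) h1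
    have h6 : OddDensity P δ := odd_density h1 (Pool.Agent.H499R2.ND.HD_ncard (Or.inl rfl) h5) h2
    refine ⟨δ, h3, h4, h6, ?_, ?_⟩
    · intro hpos
      by_contra hno
      have h7 : OddDensity P 0 := by
        unfold OddDensity
        refine (tendsto_const_nhds (x := (0 : ℝ))).congr fun N => ?_
        have h8 : {n : ℕ | n ≤ N ∧ n % 2 = 1 ∧ P n} = ∅ := by
          ext n
          simp only [Set.mem_ofPred_eq, Set.mem_empty_iff_false, iff_false]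
          rintro ⟨_, a2, a3⟩
          exact hno ⟨n, a2, a3⟩
        rw [h8]
        simp
      exact hpos.ne' (tendsto_nhds_unique h6 h7)
    · rintro ⟨n, hn, hPn⟩
      exact Pool.Agent.H499R2.ND.one_pos (s := 1) (Or.inl rfl) h1 ((h2 n hn).1 hPn) (by omega) h5
  have hset' : ∀ (P : ℕ → Prop) (δ : ℝ), Kind a c P → OddDensity P δ → ∃ S : Set ℤ,
      Pool.Agent.Results.MP_ff4775_nt.ProductsOfTwoPrimes.Invariant S ∧
      Pool.Agent.Results.MP_ff4775_nt.ProductsOfTwoPrimes.HasDensity 1 S δ ∧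
      ∀ n : ℕ, n % 2 = 1 → (P n ↔ (n : ℤ) ∈ S) := by
    intro P δ hP hδ
    obtain ⟨S, h1, h2⟩ := hset P hP
    obtain ⟨δ', _, _, h5⟩ := Pool.Agent.H499R2.ND.dens_side odd_one
      isCoprime_one_left (s := 1) (Or.inl rfl) (S := S) h1
    have h6 := Pool.Agent.H499R2.ND.HD_ncard (Or.inl rfl) h5
    have h7 : OddDensity P δ' := odd_density h1 h6 h2
    have h8 : δ' = δ := tendsto_nhds_unique h7 hδ
    subst h8
    exact ⟨S, h1, h6, h2⟩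
  have htrue : ∀ n : ℕ, n % 2 = 1 → ((fun _ : ℕ => True) n ↔ (n : ℤ) ∈ (Set.univ : Set ℤ)) :=
    fun n _ => by simp
  have p1 : ∀ ε : ℝ, 0 < ε → ∃ ϑ : ℝ, 0 < ϑ ∧ ∀ α β : ℝ, 0 < α → α < β → β ≤ ϑ → ∃ N₀ : ℕ,
      ∀ N : ℕ, N₀ ≤ N →
      ∀ (P : ℕ → Prop) (δ : ℝ), Kind a c P → OddDensity P δ → ∀ r : ℕ, r % 2 = 1 →
      (r : ℝ) ≤ (N : ℝ) ^ ϑ → 0 < AllPairs α β r N ∧ ∀ A B : Set ℕ,
      |(Pairs P A B α β r N : ℝ) - δ * Pairs (fun _ => True) A B α β r N| ≤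
        ε * AllPairs α β r N := by
    intro ε hε
    obtain ⟨ϑ, h0, h1⟩ := r1 ε hε
    refine ⟨ϑ, h0, fun α β hα hαβ hβ => ?_⟩
    obtain ⟨N0, hN0⟩ := h1 α β hα hαβ hβ
    refine ⟨N0, fun N hN P δ hP hδ r hr hrN => ?_⟩
    obtain ⟨S, h2, h3, h4⟩ := hset' P δ hP hδ
    obtain ⟨h5, h6⟩ := hN0 N hN S δ h2 h3 r (by omega) hrN
    rw [all_eq 1]
    refine ⟨h5, fun A B => ?_⟩
    rw [pairs_eq h4 A B α β hr N, pairs_eq htrue A B α β hr N]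
    exact h6 (Od A) (Od B)
  have p2 : ∀ (k l : ℕ) (ε : ℝ), 0 < ε → ∃ ϑ : ℝ, 0 < ϑ ∧ ∀ α : ℝ, 0 < α → ∃ N₀ : ℕ, ∀ N : ℕ, N₀ ≤ N →
      ∀ R : ℝ, (N : ℝ) ^ α ≤ R → R ≤ (N : ℝ) ^ ϑ →
      ∀ (P : Fin k → Fin l → ℕ → Prop) (δ : Fin k → Fin l → ℝ),
      (∀ i j, Kind a c (P i j) ∧ OddDensity (P i j) (δ i j)) →
      0 < AllTuples k l R N ∧ ∀ (A : Fin k → Set ℕ) (B : Fin l → Set ℕ),
      |(Tuples P A B R N : ℝ) - (∏ i, ∏ j, δ i j) *
        Tuples (fun (_ : Fin k) (_ : Fin l) (_ : ℕ) => True) A B R N| ≤ ε * AllTuples k l R N := by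
    intro k l ε hε
    obtain ⟨ϑ, h0, h1⟩ := r2 k l ε hε
    refine ⟨ϑ, h0, fun α hα => ?_⟩
    obtain ⟨N0, hN0⟩ := h1 α hα
    refine ⟨N0, fun N hN R hR1 hR2 P δ hPδ => ?_⟩
    have hS : ∀ i j, ∃ S : Set ℤ, Pool.Agent.Results.MP_ff4775_nt.ProductsOfTwoPrimes.Invariant S ∧
      Pool.Agent.Results.MP_ff4775_nt.ProductsOfTwoPrimes.HasDensity 1 S (δ i j) ∧
      ∀ n : ℕ, n % 2 = 1 → (P i j n ↔ (n : ℤ) ∈ S) :=
      fun i j => hset' (P i j) (δ i j) (hPδ i j).1 (hPδ i j).2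
    choose S hS1 hS2 hS3 using hS
    obtain ⟨h5, h6⟩ := hN0 N hN R hR1 hR2 S δ (fun i j => ⟨hS1 i j, hS2 i j⟩)
    refine ⟨h5, fun A B => ?_⟩
    rw [tuples_eq hS3 A B R N, tuples_eq (S := fun _ _ => Set.univ) (fun _ _ => htrue) A B R N]
    exact h6 (fun i => Od (A i)) (fun j => Od (B j))
  refine ⟨a, c, hA, hC, p0, p1, p2, ?_, ?_⟩
  · intro P hP hocc
    obtain ⟨δ, -, -, hδ, hpos⟩ := p0 P hP
    have hδ0 := hpos.2 hocc
    refine ⟨δ, hδ0, hδ, fun κ hκ => ?_⟩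
    obtain ⟨ϑ, h0, h1⟩ := p1 (κ * δ / 2) (by positivity)
    refine ⟨ϑ, h0, fun α β hα hαβ hβ => ?_⟩
    obtain ⟨N0, hN0⟩ := h1 α β hα hαβ hβ
    refine ⟨max 1 N0, fun N hN A B hAB => ?_⟩
    have hN1 : 1 ≤ N := (le_max_left _ _).trans hN
    obtain ⟨h2, h3⟩ := hN0 N ((le_max_right _ _).trans hN) P δ hP hδ 1 rfl
      (by rw [Nat.cast_one]; exact Real.one_le_rpow (by exact_mod_cast hN1) h0.le)
    have h4 := (abs_le.1 (h3 A B)).1
    have h5 := mul_le_mul_of_nonneg_left hAB (show 0 ≤ δ / 2 by positivity)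
    have h6 : δ / 2 * (Pairs (fun _ => True) A B α β 1 N : ℝ) ≤ Pairs P A B α β 1 N := by
      linarith
    refine ⟨h6, ?_⟩
    have h7 : (0 : ℝ) < AllPairs α β 1 N := by exact_mod_cast h2
    have h8 : (0 : ℝ) < Pairs (fun _ => True) A B α β 1 N := lt_of_lt_of_le (by positivity) hAB
    have h9 : (0 : ℝ) < Pairs P A B α β 1 N := lt_of_lt_of_le (by positivity) h6
    have h10 : 0 < Pairs P A B α β 1 N := by exact_mod_cast h9
    unfold Pairs at h10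
    obtain ⟨z, ⟨hz1, hz2, hz3, hz4⟩⟩ := Set.nonempty_of_ncard_ne_zero h10.ne'
    simp only [one_mul] at hz3 hz4
    exact ⟨z.1, hz1.2.2.1, z.2, hz2.2.2, hz1.1, hz2.1, hz1.2.1, hz2.2.1, hz3, hz4⟩
  · intro k l P hP
    have hE : ∀ i j, ∃ d : ℝ, 0 < d ∧ OddDensity (P i j) d := by
      intro i j
      obtain ⟨d, -, -, hd, hpos⟩ := p0 (P i j) (hP i j).1
      exact ⟨d, hpos.2 (hP i j).2, hd⟩
    choose d hd0 hd using hE
    have hpi : 0 < ∏ i, ∏ j, d i j := Finset.prod_pos fun i _ => Finset.prod_pos fun j _ => hd0 i j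
    refine ⟨(∏ i, ∏ j, d i j) / 2, by positivity, fun κ hκ => ?_⟩
    obtain ⟨ϑ, h0, h1⟩ := p2 k l (κ * (∏ i, ∏ j, d i j) / 2) (by positivity)
    refine ⟨ϑ, h0, fun α hα => ?_⟩
    obtain ⟨N0, hN0⟩ := h1 α hα
    refine ⟨N0, fun N hN R hR1 hR2 => ?_⟩
    obtain ⟨h2, h3⟩ := hN0 N hN R hR1 hR2 P d (fun i j => ⟨(hP i j).1, hd i j⟩)
    refine ⟨h2, fun A B hAB => ?_⟩
    have h4 := (abs_le.1 (h3 A B)).1
    have h5 := mul_le_mul_of_nonneg_left hAB (show 0 ≤ (∏ i, ∏ j, d i j) / 2 by positivity)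
    linarith

end Pool.Agent.Results.MP_a247fa_nt.CriticalPointsAtPrimeProducts
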