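import Mathlib
import Pool.Agent.R630.WD.Crit
import Pool.Agent.Results.MP_ff4775_nt.CoalescingPrimes

/-!
# The critical points of Chamberland's map above primes and shifted primes

For almost all primes `p`, and for almost all shifted primes `p - b`, `b` even, uniformly in the shift,
the orbit of the critical point in `(p - b, p - b + 1/2)` has, within logarithmic time, coalesced with
the orbits of the critical points above all affine neighbours; and the relative frequencies of the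
critical points of known fate, of those whose orbits tend to infinity and of those whose orbits merge
with a given one, above shifted primes, are bounded from both sides in terms of their densities.
-/

set_option autoImplicit false

open Filter Topology Set

namespace Pool.Agent.Results.MP_a247fa_nt.CriticalPointsAtShiftedPrimes

/-- Chamberland's map. -/
noncomputable def f (x : ℝ) : ℝ := x + 1 / 4 - (2 * x + 1) / 4 * Real.cos (Real.pi * x)

/-- Points of attracting cycles contained in `(0,∞)`. -/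
def AttractingPoint (y : ℝ) : Prop :=
  0 < y ∧ 0 < Function.minimalPeriod f y ∧ |deriv (f^[Function.minimalPeriod f y]) y| < 1

/-- The orbit of `x` converges to the cycle of `y`. -/
def Attracts (y x : ℝ) : Prop :=
  ∃ j : ℕ, Tendsto (fun k : ℕ => f^[k * Function.minimalPeriod f y + j] x) atTop (𝓝 y)

/-- `x` is attracted by the cycle `A₁ = {1, 2}` or by the cycle `A₂ = {a, f a}`, or its orbit ends in a
point of `[1.02, 1.05]` of period two. -/
def KnownFate (a x : ℝ) : Prop :=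
  Attracts 1 x ∨ Attracts a x ∨ ∃ K, f^[K] x ∈ Set.Icc (1.02 : ℝ) 1.05 ∧ f^[K + 2] x = f^[K] x

/-- The orbits of `x` and `y` have, from some times on, the same integral parts. -/
def Merge (x y : ℝ) : Prop := ∃ i j : ℕ, ∀ k : ℕ, ⌊f^[k + i] x⌋ = ⌊f^[k + j] y⌋

/-- `P` is one of the following properties of odd `n`, or the negation of one of them: `c n` is of known
fate; the orbit of `c n` tends to infinity; the orbit of `c n` merges with that of `c m` (`m` odd). -/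
def Kind (a : ℝ) (c : ℕ → ℝ) (P : ℕ → Prop) : Prop :=
  ∃ P' : ℕ → Prop, (P' = (fun n => KnownFate a (c n)) ∨
    P' = (fun n => Tendsto (fun k : ℕ => f^[k] (c n)) atTop atTop) ∨
    ∃ m : ℕ, m % 2 = 1 ∧ P' = fun n => Merge (c n) (c m)) ∧ (P = P' ∨ P = fun n => ¬ P' n)

/-- Among the odd positive integers the property `P` has natural density `δ`. -/
def OddDensity (P : ℕ → Prop) (δ : ℝ) : Prop :=
  Tendsto (fun N : ℕ => 2 * ({n : ℕ | n ≤ N ∧ n % 2 = 1 ∧ P n}.ncard : ℝ) / N) atTop (𝓝 δ)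

/-- The scale `√ (log n) / (log log n) ^ 17`. -/
noncomputable def κ (n : ℕ) : ℝ := √ (Real.log n) / (Real.log (Real.log n)) ^ 17

/-- At some time `t` with `4 ^ t ≤ n` the orbit of the critical point `c n` has coalesced with those of the
critical points `c m` above all odd affine neighbours `m` of `n`, `|2^a 3^b m - 2^a' 3^b' n| ≤ exp (κ n)`,
`a, b, a', b' ≤ κ n`: from then on the integral parts agree (shifted by `a' - a`), and the distance is
at most `5 / (6 (2 v + 1))`, `v` the common integral part. -/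
def Coalesces (c : ℕ → ℝ) (n : ℕ) : Prop := ∃ t : ℕ, 4 ^ t ≤ n ∧ ∀ a a' b b' : ℕ,
  (a : ℝ) ≤ κ n → (a' : ℝ) ≤ κ n → (b : ℝ) ≤ κ n → (b' : ℝ) ≤ κ n → ∀ m : ℕ, m % 2 = 1 →
  |((2 ^ a * 3 ^ b * m - 2 ^ a' * 3 ^ b' * n : ℤ) : ℝ)| ≤ Real.exp (κ n) →
  ∀ k : ℕ, ⌊f^[k + (t + a')] (c m)⌋ = ⌊f^[k + (t + a)] (c n)⌋ ∧
    |f^[k + (t + a')] (c m) - f^[k + (t + a)] (c n)| ≤
      5 / (6 * (2 * (⌊f^[k + (t + a)] (c n)⌋ : ℝ) + 1))

/-- The number of the odd primes `p` with `1 ≤ p - b ≤ N` and `Q (p - b)`. -/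
noncomputable def Shifted (b : ℤ) (N : ℕ) (Q : ℕ → Prop) : ℕ :=
  {p : ℕ | (p.Prime ∧ p % 2 = 1) ∧ b < p ∧ (p : ℤ) ≤ b + N ∧ Q ((p : ℤ) - b).toNat}.ncard

open Pool.Agent.R630.WD.Cr (Fol fol_floor zT kind_set odd_density)

theorem coal_of {c : ℕ → ℝ} (hfol : ∀ n : ℕ, n % 2 = 1 → Fol n (c n)) {n : ℕ} (hn : n % 2 = 1)
    (h : Pool.Agent.Results.MP_ff4775_nt.CoalescingPrimes.Coalesces 1 n) : Coalesces c n := by
  obtain ⟨t, ht, h1⟩ := h
  refine ⟨t, ht, fun a a' b b' ha ha' hb hb' m hm hmn k => ?_⟩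
  have h2 := h1 a a' b b' ha ha' hb hb' (m : ℤ) (by rw [one_mul]; exact hmn)
  rw [one_mul] at h2
  have h3 : ∀ (i j : ℕ), (Pool.Agent.Results.MP_ff4775_nt.CoalescingPrimes.T)^[i] (j : ℤ) =
      ((Pool.Agent.R630.WD.Cr.T^[i] j : ℕ) : ℤ) := zT
  rw [h3, h3] at h2
  have h4 : Pool.Agent.R630.WD.Cr.T^[t + a'] m = Pool.Agent.R630.WD.Cr.T^[t + a] n := by
    exact_mod_cast h2
  have h5 : Pool.Agent.R630.WD.Cr.T^[k + (t + a')] m = Pool.Agent.R630.WD.Cr.T^[k + (t + a)] n := by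
    rw [Function.iterate_add_apply, h4, ← Function.iterate_add_apply]
  have e1 : ⌊f^[k + (t + a')] (c m)⌋ = (Pool.Agent.R630.WD.Cr.T^[k + (t + a')] m : ℕ) :=
    fol_floor (by omega) (hfol m hm) _
  have e2 : ⌊f^[k + (t + a)] (c n)⌋ = (Pool.Agent.R630.WD.Cr.T^[k + (t + a)] n : ℕ) :=
    fol_floor (by omega) (hfol n hn) _
  refine ⟨by rw [e1, e2, h5], ?_⟩
  rw [e2]
  obtain ⟨f1, f2⟩ := hfol m hm (k + (t + a'))
  obtain ⟨f3, f4⟩ := hfol n hn (k + (t + a))
  rw [h5] at f1 f2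
  rw [Int.cast_natCast, abs_le]
  have g1 : ((Pool.Agent.R630.WD.Cr.T^[k + (t + a)] n : ℕ) : ℝ) ≤ f^[k + (t + a')] (c m) := f1
  have g2 : f^[k + (t + a')] (c m) ≤ ((Pool.Agent.R630.WD.Cr.T^[k + (t + a)] n : ℕ) : ℝ) +
    5 / (6 * (2 * ((Pool.Agent.R630.WD.Cr.T^[k + (t + a)] n : ℕ) : ℝ) + 1)) := f2
  have g3 : ((Pool.Agent.R630.WD.Cr.T^[k + (t + a)] n : ℕ) : ℝ) ≤ f^[k + (t + a)] (c n) := f3
  have g4 : f^[k + (t + a)] (c n) ≤ ((Pool.Agent.R630.WD.Cr.T^[k + (t + a)] n : ℕ) : ℝ) +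
    5 / (6 * (2 * ((Pool.Agent.R630.WD.Cr.T^[k + (t + a)] n : ℕ) : ℝ) + 1)) := f4
  constructor <;> linarith

theorem fin_aux (b : ℤ) (N : ℕ) (Q : ℕ → Prop) :
    {p : ℕ | p.Prime ∧ b < p ∧ (p : ℤ) ≤ b + N ∧ Q ((p : ℤ) - b).toNat}.Finite := by
  refine (Set.finite_Iic (b + N).toNat).subset (fun p hp => ?_)
  have := hp.2.2.1
  rw [Set.mem_Iic]; omega

theorem shifted_le {b : ℤ} {N : ℕ} {Q R : ℕ → Prop} (h : ∀ n : ℕ, n % 2 = 1 → Q n → R n) (hb : Even b) :
    Shifted b N Q ≤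
      {p : ℕ | p.Prime ∧ b < p ∧ (p : ℤ) ≤ b + N ∧ R ((p : ℤ) - b).toNat}.ncard := by
  refine Set.ncard_le_ncard ?_ (fin_aux b N R)
  rintro p ⟨⟨h1, h2⟩, h3, h4, h5⟩
  obtain ⟨b', rfl⟩ := hb
  exact ⟨h1, h3, h4, h _ (by omega) h5⟩

theorem le_shifted {b : ℤ} {N : ℕ} {Q R : ℕ → Prop} (h : ∀ n : ℕ, n % 2 = 1 → R n → Q n) (hb : Even b) :
    {p : ℕ | p.Prime ∧ b < p ∧ (p : ℤ) ≤ b + N ∧ R ((p : ℤ) - b).toNat}.ncard ≤
      Shifted b N Q + 1 := by
  have h1 : {p : ℕ | p.Prime ∧ b < p ∧ (p : ℤ) ≤ b + N ∧ R ((p : ℤ) - b).toNat} ⊆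
      insert 2 {p : ℕ | (p.Prime ∧ p % 2 = 1) ∧ b < p ∧ (p : ℤ) ≤ b + N ∧ Q ((p : ℤ) - b).toNat} := by
    rintro p ⟨h2, h3, h4, h5⟩
    rcases h2.eq_two_or_odd with h6 | h6
    · left; exact h6
    · right
      obtain ⟨b', rfl⟩ := hb
      exact ⟨⟨h2, h6⟩, h3, h4, h _ (by omega) h5⟩
  have hfin : {p : ℕ | (p.Prime ∧ p % 2 = 1) ∧ b < p ∧ (p : ℤ) ≤ b + N ∧
      Q ((p : ℤ) - b).toNat}.Finite := by
    refine (fin_aux b N Q).subset ?_
    rintro p ⟨⟨h2, _⟩, h3, h4, h5⟩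
    exact ⟨h2, h3, h4, h5⟩
  exact (Set.ncard_le_ncard h1 (hfin.insert 2)).trans (Set.ncard_insert_le 2 _)

/-- THE CRITICAL POINTS OF CHAMBERLAND'S MAP ABOVE SHIFTED PRIMES.
For odd `n` let `c n` be the critical point of `f` in `(n, n + 1/2)`.
(1) Each of the following properties of odd `n`, and its negation, has a natural density `δ` among the odd
positive integers, which is positive if and only if there is such an `n`: `c n` is of known fate
(attracted by `A₁` or `A₂`, or ending in a point of `[1.02, 1.05]` of period two); the orbit of `c n`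
tends to infinity; the orbit of `c n` merges with that of `c m`, `m` odd (from some times on, both have
the same integral parts).
(2) COALESCENCE. For every `ε` and `N ≥ N₀ (ε)` and all even shifts `b` with `|b| ≤ N`, for all but
`ε N / log N` of the odd primes `p` with `1 ≤ p - b ≤ N` the orbit of the critical point `c (p - b)` has,
at some time `t ≤ log₄ (p - b)`, coalesced with those of the critical points above all odd affine
neighbours of `p - b`.
(3) For `N ≥ N₀ (ε)`, all even `b` with `|b| ≤ N` and all properties `P` as in (1), where `N₀` depends on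
`ε` only: at most `(4 δ + ε) N / log N` of the odd primes `p` with `1 ≤ p - b ≤ N` have `P (p - b)`, and if
`b ≥ 0`, at least `(4 δ - 3 - ε) N / log N` do.
(4) For almost all primes `p` the critical points `c m` above all odd `m` with `|m - p| ≤ exp (κ p)` agree
with `c p` in all these properties: all are of known fate or none is, all orbits tend to infinity or none
does, and all merge with the orbit of `c p`. -/
theorem result : ∃ (a : ℝ) (c : ℕ → ℝ),
    (a ∈ Set.Icc (1.19 : ℝ) 1.196 ∧ f (f a) = a ∧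
      ∀ y, y = 1 ∨ y = 2 ∨ y = a ∨ y = f a → AttractingPoint y) ∧
    (∀ n : ℕ, n % 2 = 1 → (n : ℝ) < c n ∧ c n < n + 1 / 2 ∧ deriv f (c n) = 0 ∧
      ∀ x : ℝ, (n : ℝ) < x → x < n + 1 / 2 → deriv f x = 0 → x = c n) ∧
    (∀ P : ℕ → Prop, Kind a c P → ∃ δ : ℝ, 0 ≤ δ ∧ δ ≤ 1 ∧ OddDensity P δ ∧
      (0 < δ ↔ ∃ n : ℕ, n % 2 = 1 ∧ P n)) ∧
    (∀ ε : ℝ, 0 < ε → ∃ N₀ : ℕ, ∀ N : ℕ, N₀ ≤ N → ∀ b : ℤ, Even b → |b| ≤ N →
      (Shifted b N (fun n => ¬ Coalesces c n) : ℝ) ≤ ε * N / Real.log N) ∧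
    (∀ ε : ℝ, 0 < ε → ∃ N₀ : ℕ, ∀ (P : ℕ → Prop) (δ : ℝ), Kind a c P → OddDensity P δ →
      ∀ N : ℕ, N₀ ≤ N → ∀ b : ℤ, Even b → |b| ≤ N →
        (Shifted b N P : ℝ) ≤ (4 * δ + ε) * N / Real.log N ∧
        (0 ≤ b → (4 * δ - 3 - ε) * N / Real.log N ≤ Shifted b N P)) ∧
    (∀ ε : ℝ, 0 < ε → ∀ᶠ N : ℕ in atTop,
      ({p : ℕ | (p.Prime ∧ p % 2 = 1) ∧ p ≤ N ∧ ¬ ∀ m : ℕ, m % 2 = 1 →
        |((m - p : ℤ) : ℝ)| ≤ Real.exp (κ p) → Merge (c m) (c p) ∧
          ∀ P : ℕ → Prop, Kind a c P → (P m ↔ P p)}.ncard : ℝ) ≤ ε * N / Real.log N) := by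
  obtain ⟨a, c, hA, hC, hfol, hkf⟩ := Pool.Agent.R630.WD.Cr.crit
  obtain ⟨r1, r2, -⟩ := Pool.Agent.Results.MP_ff4775_nt.CoalescingPrimes.result 1 (Or.inl rfl)
  have hset : ∀ P : ℕ → Prop, Kind a c P → ∃ S : Set ℤ,
      (∀ x : ℤ, x ∈ S ↔ Pool.Agent.H723R2.LSW.T x ∈ S) ∧ ∀ n : ℕ, n % 2 = 1 → (P n ↔ (n : ℤ) ∈ S) :=
    fun P hP => kind_set (a := a) hfol hkf hP
  refine ⟨a, c, hA, hC, ?_, ?_, ?_, ?_⟩
  · intro P hP
    obtain ⟨S, h1, h2⟩ := hset P hP
    obtain ⟨δ, h3, h4, h5⟩ := Pool.Agent.H499R2.ND.dens_side odd_one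
      isCoprime_one_left (s := 1) (Or.inl rfl) (S := S) h1
    have h6 : OddDensity P δ := odd_density h1 (Pool.Agent.H499R2.ND.HD_ncard (Or.inl rfl) h5) h2
    refine ⟨δ, h3, h4, h6, ?_, ?_⟩
    · intro hpos
      by_contra hno
      have h7 : OddDensity P 0 := by
        unfold OddDensity
        refine (tendsto_const_nhds (x := (0 : ℝ))).congr fun N => ?_
        have h8 : {n : ℕ | n ≤ N ∧ n % 2 = 1 ∧ P n} = ∅ := by
          ext n
          simp only [Set.mem_ofPred_eq, Set.mem_empty_iff_false, iff_false]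
          rintro ⟨_, a2, a3⟩
          exact hno ⟨n, a2, a3⟩
        rw [h8]
        simp
      exact hpos.ne' (tendsto_nhds_unique h6 h7)
    · rintro ⟨n, hn, hPn⟩
      exact Pool.Agent.H499R2.ND.one_pos (s := 1) (Or.inl rfl) h1 ((h2 n hn).1 hPn) (by omega) h5
  · intro ε hε
    obtain ⟨N₀, h⟩ := r1 ε hε
    refine ⟨N₀, fun N hN b hb hbN => ?_⟩
    refine le_trans (Nat.cast_le.2 (shifted_le
      (R := fun n => ¬ Pool.Agent.Results.MP_ff4775_nt.CoalescingPrimes.Coalesces 1 n)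
      (fun n hn h1 h2 => h1 (coal_of hfol hn h2)) hb)) (h N hN b hbN)
  · intro ε hε
    obtain ⟨N₀, h⟩ := r2 (ε / 2) (by positivity)
    have hlim : Tendsto (fun N : ℕ => (N : ℝ) / Real.log N) atTop atTop := by
      have h1 : Tendsto (fun x : ℝ => x / Real.log x) atTop atTop := by
        have h2 := Real.tendsto_exp_div_pow_atTop 1
        have h3 := h2.comp Real.tendsto_log_atTop
        refine h3.congr' ?_
        filter_upwards [eventually_gt_atTop 0] with x hx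
        simp only [Function.comp_apply, pow_one]
        rw [Real.exp_log hx]
      exact h1.comp tendsto_natCast_atTop_atTop
    obtain ⟨N₁, hN₁⟩ := eventually_atTop.1 (hlim.eventually_ge_atTop (2 / ε))
    refine ⟨max N₀ N₁, fun P δ hP hδ N hN b hb hbN => ?_⟩
    obtain ⟨S, h1, h2⟩ := hset P hP
    obtain ⟨δ', hδ', hB⟩ := h S h1
    have h3 : OddDensity P δ' := odd_density h1 hδ' h2
    have h4 : δ' = δ := tendsto_nhds_unique h3 hδ
    subst h4
    obtain ⟨h5, h6⟩ := hB N ((le_max_left _ _).trans hN) b hbN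
    have hN1 := hN₁ N ((le_max_right _ _).trans hN)
    have hpos : (0 : ℝ) ≤ (N : ℝ) / Real.log N := le_trans (by positivity) hN1
    have hset1 : {p : ℕ | p.Prime ∧ b < p ∧ (p : ℤ) ≤ b + N ∧ (((p : ℤ) - b).toNat : ℤ) ∈ S} =
        {p : ℕ | p.Prime ∧ b < p ∧ (p : ℤ) ≤ b + N ∧ 1 * ((p : ℤ) - b) ∈ S} := by
      ext p
      simp only [Set.mem_ofPred_eq]
      refine and_congr_right fun _ => and_congr_right fun h7 => and_congr_right fun _ => ?_
      have h8 : (((p : ℤ) - b).toNat : ℤ) = 1 * ((p : ℤ) - b) := by omega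
      rw [h8]
    constructor
    · have h7 := shifted_le (b := b) (N := N) (Q := P) (R := fun n => (n : ℤ) ∈ S)
        (fun n hn => (h2 n hn).1) hb
      rw [hset1] at h7
      have h8 : (Shifted b N P : ℝ) ≤
          (Pool.Agent.Results.MP_ff4775_nt.CoalescingPrimes.Shifted b N (fun x => 1 * x ∈ S) : ℝ) :=
        Nat.cast_le.2 h7
      have h9 : (4 * δ' + ε / 2) * N / Real.log N ≤ (4 * δ' + ε) * N / Real.log N := by
        rw [mul_div_assoc, mul_div_assoc]
        exact mul_le_mul_of_nonneg_right (by linarith) hpos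
      exact h8.trans (h5.trans h9)
    · intro hb0
      have h7 := le_shifted (b := b) (N := N) (Q := P) (R := fun n => (n : ℤ) ∈ S)
        (fun n hn => (h2 n hn).2) hb
      rw [hset1] at h7
      have h8 : (Pool.Agent.Results.MP_ff4775_nt.CoalescingPrimes.Shifted b N (fun x => 1 * x ∈ S) : ℝ) ≤
          (Shifted b N P : ℝ) + 1 := by exact_mod_cast h7
      have h9 : (4 * δ' - 3 - ε) * N / Real.log N + 1 ≤ (4 * δ' - 3 - ε / 2) * N / Real.log N := by
        rw [mul_div_assoc, mul_div_assoc]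
        have h10 : 1 ≤ ε / 2 * (N / Real.log N) := by
          have := mul_le_mul_of_nonneg_left hN1 (show 0 ≤ ε / 2 by positivity)
          have e : ε / 2 * (2 / ε) = 1 := by field_simp
          rwa [e] at this
        nlinarith
      have h10 := h6 hb0
      linarith
  · intro ε hε
    obtain ⟨N₀, hN₀⟩ := r1 ε hε
    filter_upwards [eventually_ge_atTop N₀] with N hN
    have h1 := hN₀ N hN 0 (by simp)
    have hsub : {p : ℕ | (p.Prime ∧ p % 2 = 1) ∧ p ≤ N ∧ ¬ ∀ m : ℕ, m % 2 = 1 →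
        |((m - p : ℤ) : ℝ)| ≤ Real.exp (κ p) → Merge (c m) (c p) ∧
          ∀ P : ℕ → Prop, Kind a c P → (P m ↔ P p)} ⊆
        {p : ℕ | p.Prime ∧ (0 : ℤ) < p ∧ (p : ℤ) ≤ 0 + N ∧
          ¬ Pool.Agent.Results.MP_ff4775_nt.CoalescingPrimes.Coalesces 1 ((p : ℤ) - 0).toNat} := by
      rintro p ⟨⟨hp, hp2⟩, hpN, hno⟩
      refine ⟨hp, by exact_mod_cast hp.pos, by rw [zero_add]; exact_mod_cast hpN, ?_⟩
      rw [sub_zero, Int.toNat_natCast]
      rintro ⟨t, _, hco⟩
      apply hno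
      intro m hm2 hm
      have hmer : Pool.Agent.H723R2.LSW.Mer (m : ℤ) (p : ℤ) := by
        rcases lt_or_ge (κ p) 0 with hk | hk
        · have h3 : |((m - p : ℤ) : ℝ)| < 1 := lt_of_le_of_lt hm (Real.exp_lt_one_iff.2 hk)
          have h4 : |(m : ℤ) - (p : ℤ)| < 1 := by exact_mod_cast h3
          rw [Int.abs_lt_one_iff] at h4
          rw [show (m : ℤ) = (p : ℤ) by omega]
          exact Pool.Agent.H723R2.LSW.Mer.refl _
        · have hk' : (0 : ℝ) ≤ Pool.Agent.Results.MP_ff4775_nt.CoalescingPrimes.κ p := hk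
          have hm' : |((m - p : ℤ) : ℝ)| ≤
              Real.exp (Pool.Agent.Results.MP_ff4775_nt.CoalescingPrimes.κ p) := hm
          have h3 := hco 0 0 0 0 (by simpa using hk') (by simpa using hk') (by simpa using hk')
            (by simpa using hk') (m : ℤ) (by simpa only [pow_zero, one_mul] using hm')
          rw [one_mul] at h3
          exact ⟨t, t, h3⟩
      refine ⟨(Pool.Agent.R630.WD.Cr.merge_iff (by omega) (by omega) (hfol m hm2)
        (hfol p hp2)).2 hmer, fun P hP => ?_⟩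
      obtain ⟨S, h5, h6⟩ := hset P hP
      rw [h6 m hm2, h6 p hp2]
      obtain ⟨i, j, hij⟩ := hmer
      have h7 : ∀ (k : ℕ) (x : ℤ), x ∈ S ↔ Pool.Agent.H723R2.LSW.T^[k] x ∈ S := by
        intro k
        induction k with
        | zero => intro x; exact Iff.rfl
        | succ k ih =>
          intro x
          rw [Function.iterate_succ_apply, ← ih, ← h5]
      rw [h7 i, hij, ← h7 j]
    have hfin : {p : ℕ | p.Prime ∧ (0 : ℤ) < p ∧ (p : ℤ) ≤ 0 + N ∧
        ¬ Pool.Agent.Results.MP_ff4775_nt.CoalescingPrimes.Coalesces 1 ((p : ℤ) - 0).toNat}.Finite := by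
      refine (Set.finite_Iic N).subset (fun p hp => ?_)
      have := hp.2.2.1
      rw [Set.mem_Iic]; omega
    exact le_trans (Nat.cast_le.2 (Set.ncard_le_ncard hsub hfin)) h1

end Pool.Agent.Results.MP_a247fa_nt.CriticalPointsAtShiftedPrimes
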